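import Pool.Agent.H183R3.StekCirc

/-!
# Steklov eigenfunctions with an entire harmonic extension: arcs of conics on the boundary
-/

set_option autoImplicit false

open Complex Set Filter Topology ComplexConjugate

namespace Pool.Agent.Results.MP_bd8415_an.ConicArcs

open Pool.Agent.H183R3.Stek

/-- The standard curves: ellipses and circles, hyperbolas, and graphs of real polynomials of degree
at least two (in particular parabolas). -/
def StandardCurve (γ : ℝ → ℂ) : Prop :=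
  (∃ α β : ℝ, α ≠ 0 ∧ β ≠ 0 ∧ ∀ t : ℝ, γ t = α * Real.cos t + β * Real.sin t * I) ∨
  (∃ α β : ℝ, α ≠ 0 ∧ β ≠ 0 ∧ ∀ t : ℝ, γ t = α * Real.cosh t + β * Real.sinh t * I) ∨
  (∃ P : Polynomial ℝ, 2 ≤ P.natDegree ∧ ∀ t : ℝ, γ t = t + P.eval t * I)

/-- Let `Ω = {ρ < 0}` be a bounded planar domain with smooth boundary, and suppose that `∂Ω`
contains, up to a rotation and a translation, an arc of a circle, of an ellipse, of a hyperbola, or
of the graph of a real polynomial of degree at least two. If two linearly independent Steklov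
eigenfunctions of `Ω` with positive eigenvalues extend to entire harmonic functions, then `Ω` is a
disk. -/
theorem result (ρ : ℂ → ℝ) (hΩ : SmoothDomain ρ) (γ : ℝ → ℂ) (hγ : StandardCurve γ) (c u : ℂ)
    (hu : ‖u‖ = 1) (a b : ℝ) (hab : a < b) (harc : ∀ t : ℝ, a < t → t < b → ρ (c + u * γ t) = 0)
    (σ₁ σ₂ : ℝ) (hσ₁ : 0 < σ₁) (hσ₂ : 0 < σ₂) (U₁ U₂ : ℂ → ℝ)
    (hU₁ : EntireSteklov ρ σ₁ U₁) (hU₂ : EntireSteklov ρ σ₂ U₂)
    (hlin : ∀ x y : ℝ, (∀ z, x * U₁ z + y * U₂ z = 0) → x = 0 ∧ y = 0) :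
    ∃ (p : ℂ) (r : ℝ), 0 < r ∧ {z : ℂ | ρ z < 0} = Metric.ball p r := by
  have hd : Differentiable ℝ ρ := hΩ.smooth.differentiable (by simp)
  have hno : ¬ ∀ z, U₁ z = 0 := fun h =>
    one_ne_zero (hlin 1 0 (fun z => by rw [h z]; ring)).1
  rcases hγ with ⟨α, β, hα, hβ, h⟩ | ⟨α, β, hα, hβ, h⟩ | ⟨P, hP, h⟩
  · by_cases hαβ : α ^ 2 = β ^ 2
    · have hκ : u * (α : ℂ) ≠ 0 :=
        mul_ne_zero (by intro h; rw [h] at hu; simp at hu) (by exact_mod_cast hα)
      refine ⟨c, ‖u * (α : ℂ)‖, norm_pos_iff.2 hκ, ?_⟩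
      rcases sq_eq_sq_iff_eq_or_eq_neg.1 hαβ.symm with hb | hb
      · refine circle_rigid hΩ c (u * α) hκ hab (fun t h1 h2 => ?_) hσ₁ hσ₂ hU₁ hU₂ hlin
        have := harc t h1 h2
        rw [h, hb] at this
        rw [← this]
        congr 1
        ring
      · refine circle_rigid hΩ c (u * α) hκ (neg_lt_neg hab) (fun t h1 h2 => ?_) hσ₁ hσ₂ hU₁ hU₂ hlin
        have := harc (-t) (by linarith) (by linarith)
        rw [h, hb, Real.cos_neg, Real.sin_neg] at this
        rw [← this]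
        congr 1
        push_cast
        ring
    · exact absurd (ellipse hd hΩ.regular c u hu α β hα hβ hαβ hab
        (fun t h1 h2 => by rw [← h]; exact harc t h1 h2) hσ₁.ne' hU₁) hno
  · exact absurd (hyperbola hd hΩ.regular c u hu α β hα hβ hab
      (fun t h1 h2 => by rw [← h]; exact harc t h1 h2) hσ₁.ne' hU₁) hno
  · exact absurd (graph hd hΩ.regular c u hu P hP hab
      (fun t h1 h2 => by rw [← h]; exact harc t h1 h2) hσ₁.ne' hU₁) hno

end Pool.Agent.Results.MP_bd8415_an.ConicArcs
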