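import Pool.Agent.H183R3.StekDisk

/-!
# Steklov eigenfunctions with an entire harmonic extension: polynomial images of the disk
-/

set_option autoImplicit false

open Complex Set Filter Topology ComplexConjugate

namespace Pool.Agent.Results.MP_bd8415_an.DiskImages

open Pool.Agent.H183R3.Stek

theorem image_disk (p : Polynomial ℂ) (hp : p.natDegree = 1) :
    ∃ (c : ℂ) (r : ℝ), 0 < r ∧ (fun z => p.eval z) '' Metric.ball (0 : ℂ) 1 = Metric.ball c r := by
  obtain ⟨a, ha, b, rfl⟩ := Polynomial.natDegree_eq_one.1 hp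
  refine ⟨b, ‖a‖, norm_pos_iff.2 ha, ?_⟩
  ext w
  simp only [mem_image, Metric.mem_ball, dist_zero_right, Polynomial.eval_add, Polynomial.eval_mul,
    Polynomial.eval_C, Polynomial.eval_X]
  constructor
  · rintro ⟨z, hz, rfl⟩
    rw [dist_eq_norm, add_sub_cancel_right, norm_mul]
    have : 0 < ‖a‖ := norm_pos_iff.2 ha
    nlinarith
  · intro hw
    refine ⟨(w - b) / a, ?_, by field_simp; ring⟩
    rw [norm_div, div_lt_one (norm_pos_iff.2 ha), ← dist_eq_norm]
    exact hw

/-- Let `Ω = {ρ < 0}` be a bounded planar domain with smooth boundary which is the image of the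
unit disk under a polynomial `p` whose derivative has no zero in the closed unit disk. If the
linear span of the Steklov eigenfunctions of `Ω` with an entire harmonic extension is dense in the
following weak sense, that the function `Re z` on `∂Ω` is a uniform limit of elements of the span,
then `Ω` is a disk. -/
theorem result (ρ : ℂ → ℝ) (hΩ : SmoothDomain ρ) (p : Polynomial ℂ)
    (hp : ∀ z : ℂ, ‖z‖ ≤ 1 → p.derivative.eval z ≠ 0)
    (hin : {z : ℂ | ρ z < 0} = (fun z => p.eval z) '' Metric.ball (0 : ℂ) 1)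
    (hbd : {z : ℂ | ρ z = 0} = (fun z => p.eval z) '' Metric.sphere (0 : ℂ) 1)
    (hdense : ∀ ε : ℝ, 0 < ε → ∃ V ∈ entireSpan ρ, ∀ z : ℂ, ρ z = 0 → |V z - z.re| ≤ ε) :
    ∃ (c : ℂ) (r : ℝ), 0 < r ∧ {z : ℂ | ρ z < 0} = Metric.ball c r := by
  have hρ : Differentiable ℝ ρ := hΩ.smooth.differentiable (by simp)
  have hbd' : ∀ z : ℂ, ‖z‖ = 1 → ρ (p.eval z) = 0 := by
    intro z hz
    have : p.eval z ∈ {z : ℂ | ρ z = 0} := by
      rw [hbd]; exact ⟨z, by simpa using hz, rfl⟩
    exact this
  have h1 := disk_rigid hρ hΩ.regular p hp hbd' hdense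
  obtain ⟨c, r, hr, h2⟩ := image_disk p h1
  exact ⟨c, r, hr, by rw [hin, h2]⟩

end Pool.Agent.Results.MP_bd8415_an.DiskImages
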