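import Pool.Agent.H183R3.StekArc

/-!
# Steklov eigenfunctions with an entire harmonic extension: odd zeros of the arc length density
-/

set_option autoImplicit false

open Complex Set Filter Topology ComplexConjugate

namespace Pool.Agent.Results.MP_bd8415_an.OddZeros

open Pool.Agent.H183R3.Stek

/-- Let `Ω = {ρ < 0}` be a bounded planar domain with smooth boundary and let `Z` be an entire
curve such that `Z (a, b)` is a regular arc of `∂Ω` for some real interval `(a, b)`. If the entire
function `Z'(t) · conj (Z'(conj t))`, which is the square of the arc length density `|Z'(t)|` for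
real `t`, has a zero of odd order, then no Steklov eigenfunction of `Ω` with a nonzero eigenvalue
extends to an entire harmonic function. -/
theorem result (ρ : ℂ → ℝ) (hΩ : SmoothDomain ρ) (Z : ℂ → ℂ) (hZ : Differentiable ℂ Z) (a b : ℝ)
    (hab : a < b) (harc : ∀ t : ℝ, a < t → t < b → ρ (Z t) = 0 ∧ deriv Z t ≠ 0)
    (t₀ : ℂ) (n : ℕ) (hn : Odd n)
    (hord : analyticOrderAt (fun t => deriv Z t * conj (deriv Z (conj t))) t₀ = n)
    (σ : ℝ) (hσ : σ ≠ 0) (U : ℂ → ℝ) (hU : EntireSteklov ρ σ U) : ∀ z, U z = 0 :=
  odd_arc (hΩ.smooth.differentiable (by simp)) hΩ.regular hZ hab harc t₀ n hn hord hσ hU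

end Pool.Agent.Results.MP_bd8415_an.OddZeros
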