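import Pool.Agent.H183R3.StekSegB

/-!
# Steklov eigenfunctions with an entire harmonic extension: straight segments on the boundary
-/

set_option autoImplicit false

open Complex Set Filter Topology ComplexConjugate

namespace Pool.Agent.Results.MP_bd8415_an.Segments

open Pool.Agent.H183R3.Stek

/-- Let `Ω = {ρ < 0}` be a bounded planar domain with smooth boundary which contains a straight
segment of direction `u`. Then there is a boundary point `z` at which `u` is tangent to the boundary
and such that, for every Steklov eigenfunction of `Ω` with an entire harmonic extension `U`, the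
derivative of `U` at `z` in the direction `u` vanishes. -/
theorem result (ρ : ℂ → ℝ) (hΩ : SmoothDomain ρ) (c u : ℂ) (hu : ‖u‖ = 1) (a b : ℝ) (hab : a < b)
    (hseg : ∀ t : ℝ, a < t → t < b → ρ (c + u * t) = 0) :
    ∃ z : ℂ, ρ z = 0 ∧ fderiv ℝ ρ z u = 0 ∧
      ∀ (σ : ℝ) (U : ℂ → ℝ), EntireSteklov ρ σ U → fderiv ℝ U z u = 0 := by
  by_contra hcon
  push Not at hcon
  exact no_segment hΩ c u hu hab hseg hcon

end Pool.Agent.Results.MP_bd8415_an.Segments
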